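import Mathlib
import Pool.Agent.H73.G.R8.H135R2.VS.Der

set_option linter.style.haveILetI false

/-! # Algebraic functions of linear forms: multiplicative relations are trivial -/

namespace Pool.Agent.H327R2.SC

open Polynomial

section basic

variable (K L : Type*) [Field K] [Field L] [Algebra K L]

variable {K L}

/-- A derivation killing a subfield kills the elements algebraic over it. -/
theorem der_alg [CharZero K] (F : IntermediateField K L) (D : Derivation K L L)
    (hD : ∀ x ∈ F, D x = 0) {u : L} (hu : IsAlgebraic F u) : D u = 0 := by
  let D' : Derivation F L L := Derivation.mk' (R := F)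
    { toFun := fun x => D x
      map_add' := fun a b => map_add D a b
      map_smul' := fun k x => by
        change D ((k : L) * x) = (k : L) * D x
        rw [Derivation.leibniz, hD k k.2]
        simp } (fun a b => D.leibniz a b)
  have h1 : D' u = D u := rfl
  have h2 := D'.map_aeval (minpoly F u) u
  rw [minpoly.aeval, map_zero] at h2
  haveI : CharZero F := charZero_of_injective_algebraMap (algebraMap K F).injective
  have hsep : (minpoly F u).Separable := (minpoly.irreducible hu.isIntegral).separable
  have h3 := hsep.aeval_derivative_ne_zero (minpoly.aeval F u)
  rw [eq_comm, smul_eq_zero] at h2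
  rw [← h1]
  exact h2.resolve_left h3

end basic

section lemE

variable {K L : Type*} [Field K] [Field L] [Algebra K L] [CharZero K]

end lemE

end Pool.Agent.H327R2.SC
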