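import Pool.Agent.H73.G.R8.H327R2.SC.Der

set_option linter.style.haveILetI false

namespace Pool.Agent.H327R2.SC

open Polynomial

variable {K L : Type*} [Field K] [Field L] [Algebra K L]

theorem logder (D : Derivation K L L) {ι : Type*} (s : Finset ι) (u : ι → L)
    (hu : ∀ i ∈ s, u i ≠ 0) (n : ι → ℤ) :
    D (∏ i ∈ s, u i ^ n i) = (∏ i ∈ s, u i ^ n i) * ∑ i ∈ s, (n i : L) * (D (u i) / u i) := by
  classical
  induction s using Finset.induction_on with
  | empty => simp
  | insert a s ha ih =>
    have hu' : ∀ i ∈ s, u i ≠ 0 := fun i hi => hu i (Finset.mem_insert_of_mem hi)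
    have hua : u a ≠ 0 := hu a (Finset.mem_insert_self _ _)
    rw [Finset.prod_insert ha, Finset.sum_insert ha, Derivation.leibniz, ih hu',
      Derivation.leibniz_zpow, smul_eq_mul, smul_eq_mul, smul_eq_mul, zsmul_eq_mul]
    rw [zpow_sub_one₀ hua]
    field_simp
    ring

end Pool.Agent.H327R2.SC
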