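import Pool.Agent.H73.G.R8.H327R2.SC.Frechet

set_option linter.style.haveILetI false

namespace Pool.Agent.H327R2.SC

open Polynomial

theorem kills_adjoin {K L : Type*} [Field K] [Field L] [Algebra K L] {S : Set L}
    (D : Derivation K L L) (h : ∀ s ∈ S, D s = 0) :
    ∀ x ∈ IntermediateField.adjoin K S, D x = 0 := by
  intro k hk
  induction hk using IntermediateField.adjoin_induction with
  | mem x hx => exact h x hx
  | algebraMap x => exact D.map_algebraMap x
  | add x y _ _ hx hy => rw [map_add, hx, hy, add_zero]
  | inv x _ hx => rw [Derivation.leibniz_inv, hx, smul_zero]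
  | mul x y _ _ hx hy => rw [Derivation.leibniz, hx, hy, smul_zero, smul_zero, add_zero]

variable {m : ℕ} (x : Fin 2 → Fin m → ℂ)

end Pool.Agent.H327R2.SC
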